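import Pool.Agent.H691.Q2.Stm

set_option autoImplicit false

namespace Pool.Agent.H860.Q2

open Pool.Agent.W982.TA Pool.Agent.H691.Q2

theorem dt_swap (a b c : Pt) : dt b a c = -dt a b c := by simp only [dt]; ring

theorem dt_rot (a b c : Pt) : dt b c a = dt a b c := by simp only [dt]; ring

/-- sign version of `dt_sp_pos` and `dt_sp_neg` -/
theorem dt_sp_sign {X Y N : ℤ} (hN : 4 * Y + 8 ≤ N) (hY : 0 < Y) {p q r : Pt} (hp : p ∈ box X Y)
    (hq : q ∈ box X Y) (hr : r ∈ box X Y) {α β γ : ℤ} (hα : 0 ≤ α) (hα' : α ≤ 1) (hβ : 0 ≤ β)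
    (hβ' : β ≤ 1) (hγ : 0 ≤ γ) (hγ' : γ ≤ 1) {τ : ℤ} (hτ : τ = 1 ∨ τ = -1)
    (h : 0 < τ * dt p q r) : 0 < τ * dt (sp N p α) (sp N q β) (sp N r γ) := by
  rcases hτ with rfl | rfl
  · have := dt_sp_pos hN hY hp hq hr hα hα' hβ hβ' hγ hγ' (by linarith)
    linarith
  · have := dt_sp_neg hN hY hp hq hr hα hα' hβ hβ' hγ hγ' (by linarith)
    linarith

theorem step (g9 : TaskG9) (g1 : TaskG1) (X Y N : ℤ) (W : Finset Pt) (T : Set (Sym2 Pt))
    (hP : Par X Y N W) (hG : Good X Y N W T) (p g : Pt) (hg : g.2 = 1 ∨ g.2 = -1)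
    (hp : p ∈ box X Y) : ∀ n : ℕ, ∀ k : ℤ, 2 ≤ k → Y - k < n →
      ((p.1 + k * g.1, p.2 + k * g.2) : Pt) ∈ W →
      s(sp N p 0, sp N (p.1 + k * g.1, p.2 + k * g.2) 1) ∈ T → False := by
  intro n
  induction n with
  | zero =>
    intro k hk hn hq _
    have hq' := mem_ibox.1 (hP.W0 hq)
    have hp' := mem_box.1 hp
    simp only at hq'
    push_cast at hn
    rcases hg with h | h <;> rw [h] at hq' <;> omega
  | succ n ih =>
    intro k hk hn hq hT
    set q : Pt := (p.1 + k * g.1, p.2 + k * g.2) with hqdef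
    have hNY := hP.N0
    have hY0 := hP.Y0
    have hN0 : 0 < N := by linarith
    have hqb : q ∈ box X Y := ibox_box (hP.W0 hq)
    have hq' := mem_box.1 hqb
    have hp' := mem_box.1 hp
    set z : Pt := (p.1 + g.1, p.2 + g.2) with hzdef
    have hk0 : 0 < k := by linarith
    have hz : z ∈ box X Y := by
      rw [mem_box]
      simp only [hzdef]
      simp only [hqdef] at hq'
      refine ⟨?_, ?_, ?_, ?_⟩
      · rcases le_or_gt 0 g.1 with h | h
        · linarith
        · nlinarith
      · rcases le_or_gt 0 g.1 with h | h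
        · nlinarith
        · linarith
      · rcases le_or_gt 0 g.2 with h | h
        · linarith
        · nlinarith
      · rcases le_or_gt 0 g.2 with h | h
        · nlinarith
        · linarith
    have hzS : sp N z 0 ∈ SS X Y N W := mem_SS.2 (Or.inl ⟨z, hz, rfl⟩)
    have hgg : g.2 * g.2 = 1 := by rcases hg with h | h <;> rw [h] <;> norm_num
    have hABz : dt (sp N p 0) (sp N q 1) (sp N z 0) = N * g.2 := by
      rw [dt_sp]
      simp only [dt, hqdef, hzdef]
      ring
    -- the third vertex
    obtain ⟨c, h1, h2, h3, h4⟩ : ∃ c, 0 < g.2 * dt (sp N p 0) (sp N q 1) c ∧ c ∈ SS X Y N W ∧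
        s(sp N p 0, c) ∈ T ∧ (2 * N ≤ g.2 * dt (sp N p 0) (sp N q 1) c ∧
          ∀ r ∈ SS X Y N W, 0 ≤ g.2 * dt (sp N p 0) (sp N q 1) r →
            0 ≤ g.2 * dt (sp N q 1) c r → 0 ≤ g.2 * dt c (sp N p 0) r →
            r = sp N p 0 ∨ r = sp N q 1 ∨ r = c) := by
      rcases hg with h | h
      · obtain ⟨c, hc1, hc2, -⟩ := g9 _ T hG.tri (sp N p 0) (sp N q 1) hT
          ⟨sp N z 0, hzS, by rw [hABz, h]; linarith⟩
        have hcS : c ∈ SS X Y N W := (hG.tri.seg _ _ hc2.2.2.1).2.1
        have har := hG.area _ _ _ hc2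
        refine ⟨c, by rw [h]; linarith, hcS, hc2.2.2.1, ?_, ?_⟩
        · rw [abs_of_pos hc1] at har
          rw [h]
          linarith
        · intro r hr h5 h6 h7
          rw [h, one_mul] at h5 h6 h7
          exact hc2.2.2.2.2 r hr ((g1 _ _ _ r hc1).2 ⟨h5, h6, h7⟩)
      · have hT' : s(sp N q 1, sp N p 0) ∈ T := by
          rw [Sym2.eq_swap]
          exact hT
        obtain ⟨c, hc1, hc2, -⟩ := g9 _ T hG.tri (sp N q 1) (sp N p 0) hT'
          ⟨sp N z 0, hzS, by rw [dt_swap, hABz, h]; linarith⟩
        have hcS : c ∈ SS X Y N W := (hG.tri.seg _ _ hc2.2.2.1).2.1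
        have har := hG.area _ _ _ hc2
        refine ⟨c, by rw [h]; rw [dt_swap] at hc1; linarith, hcS, hc2.2.1, ?_, ?_⟩
        · rw [abs_of_pos hc1] at har
          rw [dt_swap] at har
          rw [h]
          linarith
        · intro r hr h5 h6 h7
          rw [h] at h5 h6 h7
          have := hc2.2.2.2.2 r hr ((g1 _ _ _ r hc1).2 ⟨by rw [dt_swap]; linarith,
            by rw [dt_swap]; linarith, by rw [dt_swap]; linarith⟩)
          tauto
    obtain ⟨r, hr, d, hd, rfl⟩ := mem_SS' hP.W0 h2
    have hd01 : 0 ≤ d ∧ d ≤ 1 := by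
      rcases hd with h | ⟨h, -⟩ <;> omega
    have e1 : dt p q r = k * dt r p z := by
      simp only [dt, hqdef, hzdef]
      ring
    have e2 : dt q r z = (k - 1) * dt r p z := by
      simp only [dt, hqdef, hzdef]
      ring
    -- the coarse area vanishes
    have hcoarse : dt p q r = 0 := by
      by_contra hne
      have hpos : 0 < g.2 * dt p q r := by
        rcases lt_trichotomy (g.2 * dt p q r) 0 with h | h | h
        · exfalso
          have hg' : -g.2 = 1 ∨ -g.2 = -1 := by omega
          have := dt_sp_sign hNY hY0 hp hqb hr (le_refl 0) zero_le_one zero_le_one (le_refl 1)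
            hd01.1 hd01.2 hg' (by linarith)
          linarith
        · exfalso
          rcases mul_eq_zero.1 h with h | h
          · rw [h] at hgg
            omega
          · exact hne h
        · exact h
      have hpos1 : 0 < g.2 * dt r p z := by
        rw [e1] at hpos
        have : 0 < k * (g.2 * dt r p z) := by linarith
        exact pos_of_mul_pos_right this hk0.le
      have hpos2 : 0 < g.2 * dt q r z := by
        rw [e2]
        have : 0 < (k - 1) * (g.2 * dt r p z) := mul_pos (by linarith) hpos1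
        linarith
      have hs1 := dt_sp_sign hNY hY0 hr hp hz hd01.1 hd01.2 (le_refl 0) zero_le_one
        (le_refl 0) zero_le_one hg hpos1
      have hs2 := dt_sp_sign hNY hY0 hqb hr hz zero_le_one (le_refl 1) hd01.1 hd01.2
        (le_refl 0) zero_le_one hg hpos2
      have hz3 : 0 ≤ g.2 * dt (sp N p 0) (sp N q 1) (sp N z 0) := by
        rw [hABz]
        have : g.2 * (N * g.2) = N := by
          calc g.2 * (N * g.2) = N * (g.2 * g.2) := by ring
            _ = N := by rw [hgg, mul_one]
        linarith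
      have hN2 : 2 ≤ N := by linarith
      rcases h4.2 (sp N z 0) hzS hz3 hs2.le hs1.le with h | h | h
      · have := (sp_inj hN2 (le_refl 0) zero_le_one (le_refl 0) zero_le_one h).1
        have h5 : p.2 + g.2 = p.2 := congrArg Prod.snd this
        omega
      · have := (sp_inj hN2 (le_refl 0) zero_le_one zero_le_one (le_refl 1) h).1
        have h5 : p.2 + g.2 = p.2 + k * g.2 := congrArg Prod.snd this
        have h6 : (k - 1) * g.2 = 0 := by linarith
        rcases mul_eq_zero.1 h6 with h6 | h6 <;> omega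
      · have := (sp_inj hN2 (le_refl 0) zero_le_one hd01.1 hd01.2 h).1
        apply hne
        rw [← this]
        simp only [dt, hqdef, hzdef]
        ring
    have e3 : dt r p z = 0 := by
      rw [e1] at hcoarse
      rcases mul_eq_zero.1 hcoarse with h | h
      · omega
      · exact h
    obtain ⟨j, hj⟩ : ∃ j : ℤ, r = (p.1 + j * g.1, p.2 + j * g.2) := by
      refine ⟨g.2 * (r.2 - p.2), ?_⟩
      have e4 : (p.1 - r.1) * g.2 = (p.2 - r.2) * g.1 := by
        simp only [dt, hzdef] at e3
        linarith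
      refine Prod.ext ?_ ?_
      · change r.1 = p.1 + g.2 * (r.2 - p.2) * g.1
        have : (p.1 - r.1) * (g.2 * g.2) = (p.2 - r.2) * g.1 * g.2 := by
          rw [← e4]
          ring
        rw [hgg] at this
        linarith
      · change r.2 = p.2 + g.2 * (r.2 - p.2) * g.2
        have : g.2 * (r.2 - p.2) * g.2 = (g.2 * g.2) * (r.2 - p.2) := by ring
        rw [this, hgg]
        ring
    have harea := h4.1
    rw [dt_sp, hcoarse] at harea
    rcases hd with rfl | ⟨rfl, hrW⟩
    · -- `d = 0`
      have h5 : g.2 * (N ^ 2 * 0 + N * (0 * (q.2 - r.2) + 1 * (r.2 - p.2) + 0 * (p.2 - q.2))) =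
          N * (j * (g.2 * g.2)) := by
        rw [hj]
        ring
      rw [h5, hgg, mul_one] at harea
      have hj2 : 2 ≤ j := by
        by_contra hcon
        push Not at hcon
        have : N * j ≤ N * 1 := mul_le_mul_of_nonneg_left (by omega) hN0.le
        linarith
      refine (hG.tri.seg _ _ h3).2.2.2 (sp N z 0) hzS ?_
      have hjR : (0 : ℝ) < (j : ℝ) := by
        have : (2 : ℝ) ≤ (j : ℝ) := by exact_mod_cast hj2
        linarith
      have hjR1 : (1 : ℝ) < (j : ℝ) := by
        have : (2 : ℝ) ≤ (j : ℝ) := by exact_mod_cast hj2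
        linarith
      refine ⟨1 - 1 / (j : ℝ), 1 / (j : ℝ), ?_, by positivity, by ring, ?_⟩
      · rw [sub_pos, div_lt_one hjR]
        exact hjR1
      · have hne : (j : ℝ) ≠ 0 := hjR.ne'
        refine Prod.ext ?_ ?_
        · simp only [emb, sp, hj, hzdef, Prod.fst_add, Prod.smul_fst, smul_eq_mul]
          push_cast
          field_simp
          ring
        · simp only [emb, sp, hj, hzdef, Prod.snd_add, Prod.smul_snd, smul_eq_mul]
          push_cast
          field_simp
          ring
    · -- `d = 1`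
      have h5 : g.2 * (N ^ 2 * 0 + N * (0 * (q.2 - r.2) + 1 * (r.2 - p.2) + 1 * (p.2 - q.2))) =
          N * ((j - k) * (g.2 * g.2)) := by
        rw [hj]
        simp only [hqdef]
        ring
      rw [h5, hgg, mul_one] at harea
      have hj2 : k < j := by
        by_contra hcon
        push Not at hcon
        have : N * (j - k) ≤ N * 0 := mul_le_mul_of_nonneg_left (by omega) hN0.le
        linarith
      refine ih j (by omega) ?_ ?_ ?_
      · push_cast at hn
        omega
      · rw [← hj]
        exact hrW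
      · rw [← hj]
        exact h3

theorem P1a (g1 : TaskG1) (g9 : TaskG9) : TaskP1a := by
  intro X Y N W T hP hG p q g k hk hq _ hg0 hp hqW hT
  by_contra hcon
  push Not at hcon
  have hg : g.2 = 1 ∨ g.2 = -1 := by
    have := abs_lt.1 hcon
    omega
  subst hq
  refine step g9 g1 X Y N W T hP hG p g hg hp (Y - k + 1).toNat k hk ?_ hqW hT
  omega

end Pool.Agent.H860.Q2
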